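import Mathlib

set_option autoImplicit false

/-!
Propermutability is not inherited by intermediate subgroups: in `G = D_8 × C_4` let `A` be
generated by a reflection `s` of `D_8` and let `B` be the subgroup of index two generated by `s` and
`(r, 1)`. Then `A` is propermutable in `G` but not in `B`.
-/

namespace Pool.Agent.Results.MP_1ee7a3_al.OrderThirtyTwo

open scoped Pointwise

/-- `H` is propermutable in `X`: `X = N_X(H) T` for some subgroup `T` such that `H` permutes with
every subgroup of `T`. -/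
def Propermutable {X : Type} [Group X] (H : Subgroup X) : Prop :=
  ∃ T : Subgroup X, (∀ g : X, ∃ n ∈ Subgroup.normalizer (H : Set X), ∃ t ∈ T, g = n * t) ∧
    ∀ K : Subgroup X, K ≤ T → (H : Set X) * (K : Set X) = (K : Set X) * (H : Set X)

/-- The group `D_8 × C_4`. -/
abbrev GG : Type := DihedralGroup 4 × Multiplicative (ZMod 4)

/-- The reflection. -/
def a : GG := (DihedralGroup.sr 0, 1)

/-- The rotation. -/
def t : GG := (DihedralGroup.r 1, 1)

/-- The parity map on `D_8` with kernel `⟨s, r²⟩`. -/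
def par : DihedralGroup 4 → ZMod 2
  | DihedralGroup.r i => ZMod.castHom (by norm_num : 2 ∣ 4) (ZMod 2) i
  | DihedralGroup.sr i => ZMod.castHom (by norm_num : 2 ∣ 4) (ZMod 2) i

/-- The parity map on `C_4`. -/
def par' (x : Multiplicative (ZMod 4)) : ZMod 2 :=
  ZMod.castHom (by norm_num : 2 ∣ 4) (ZMod 2) (Multiplicative.toAdd x)

/-- The subgroup `B`, of index two. -/
def B : Subgroup GG where
  carrier := {x | par x.1 = par' x.2}
  one_mem' := by decide
  mul_mem' := by
    have h : ∀ x y : GG, par x.1 = par' x.2 → par y.1 = par' y.2 →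
        par (x * y).1 = par' (x * y).2 := by decide
    intro x y hx hy
    exact h x y hx hy
  inv_mem' := by
    have h : ∀ x : GG, par x.1 = par' x.2 → par (x⁻¹).1 = par' (x⁻¹).2 := by decide
    intro x hx
    exact h x hx

/-- The subgroup `A` of order two. -/
def A : Subgroup GG := Subgroup.zpowers a

theorem mem_A (x : GG) : x ∈ A ↔ x = 1 ∨ x = a := by
  have ha : a ^ 2 = 1 := by decide
  constructor
  · intro hx
    obtain ⟨k, rfl⟩ := Subgroup.mem_zpowers_iff.1 hx
    rcases Int.even_or_odd k with ⟨m, hm⟩ | ⟨m, hm⟩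
    · left
      have : a ^ k = (a ^ 2) ^ m := by rw [hm, ← zpow_natCast, ← zpow_mul]; congr 1; push_cast; ring
      rw [this, ha, one_zpow]
    · right
      have : a ^ k = (a ^ 2) ^ m * a := by
        rw [hm, zpow_add, zpow_one, ← zpow_natCast a 2, ← zpow_mul]; congr 1
      rw [this, ha, one_zpow, one_mul]
  · rintro (rfl | rfl)
    · exact one_mem _
    · exact Subgroup.mem_zpowers a

theorem A_le_B : A ≤ B := by
  intro x hx
  rcases (mem_A x).1 hx with rfl | rfl
  · exact one_mem _
  · change par a.1 = par' a.2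
    decide

/-- If the involution `a` normalises `K` elementwise as a set, then `A` and `K` permute. -/
theorem permutes {X : Type} [Group X] (H K : Subgroup X) (h : ∀ x ∈ H, ∀ k ∈ K, x * k * x⁻¹ ∈ K) :
    (H : Set X) * (K : Set X) = (K : Set X) * (H : Set X) := by
  ext y
  constructor
  · rintro ⟨x, hx, k, hk, rfl⟩
    exact ⟨x * k * x⁻¹, h x hx k hk, x, hx, by simp⟩
  · rintro ⟨k, hk, x, hx, rfl⟩
    refine ⟨x, hx, x⁻¹ * k * x, ?_, by simp [mul_assoc]⟩
    have := h x⁻¹ (inv_mem hx) k hk
    simpa using this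

theorem propermutable_G : Propermutable A := by
  refine ⟨Subgroup.zpowers t, ?_, ?_⟩
  · intro g
    have h : ∀ g : GG, g * a * g⁻¹ = a ∨ (g * t⁻¹) * a * (g * t⁻¹)⁻¹ = a := by decide
    have hn : ∀ n : GG, n * a * n⁻¹ = a → n ∈ Subgroup.normalizer (A : Set GG) := by
      intro n hn
      rw [Subgroup.mem_normalizer_iff]
      intro x
      rw [mem_A, mem_A]
      constructor
      · rintro (rfl | rfl)
        · left; simp
        · right; exact hn
      · rintro (h | h)
        · left
          have := congrArg (fun w => n⁻¹ * w * n) h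
          simpa [mul_assoc] using this
        · right
          rw [← hn] at h
          exact mul_left_cancel (mul_right_cancel h)
    rcases h g with h | h
    · exact ⟨g, hn g h, 1, one_mem _, by simp⟩
    · exact ⟨g * t⁻¹, hn _ h, t, Subgroup.mem_zpowers t, by simp⟩
  · intro K hK
    apply permutes
    intro x hx k hk
    have h1 : a * t * a⁻¹ = t⁻¹ := by decide
    obtain ⟨m, rfl⟩ := Subgroup.mem_zpowers_iff.1 (hK hk)
    rcases (mem_A x).1 hx with rfl | rfl
    · simpa using hk
    · have h2 : a * t ^ m * a⁻¹ = (t ^ m)⁻¹ := by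
        rw [← conj_zpow, h1, inv_zpow]
      rw [h2]
      exact inv_mem hk

theorem not_propermutable_B : ¬ Propermutable (A.subgroupOf B) := by
  rintro ⟨C, hC1, hC2⟩
  -- an element of `C` not commuting with `a`
  have haB : a ∈ B := A_le_B (Subgroup.mem_zpowers a)
  have hbB : ((DihedralGroup.r 1, Multiplicative.ofAdd 1) : GG) ∈ B := by
    change par (DihedralGroup.r 1) = par' (Multiplicative.ofAdd 1)
    decide
  obtain ⟨n, hn, c, hc, e⟩ := hC1 ⟨_, hbB⟩
  have hmem : ∀ x : B, x ∈ A.subgroupOf B ↔ (x : GG) = 1 ∨ (x : GG) = a := by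
    intro x; rw [Subgroup.mem_subgroupOf, mem_A]
  -- `n` commutes with `a`
  have hna : (n : GG) * a * (n : GG)⁻¹ = a := by
    have h1 := (Subgroup.mem_normalizer_iff.1 hn ⟨a, haB⟩).1 ((hmem _).2 (Or.inr rfl))
    rcases (hmem _).1 h1 with h2 | h2
    · exfalso
      have h3 : (n : GG) * a * (n : GG)⁻¹ = 1 := h2
      have h4 : a = 1 := by
        have := congrArg (fun w => (n : GG)⁻¹ * w * n) h3
        simpa [mul_assoc] using this
      exact absurd h4 (by decide)
    · exact h2
  have hca : (c : GG) * a ≠ a * (c : GG) := by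
    intro h
    have h3 : ((DihedralGroup.r 1, Multiplicative.ofAdd 1) : GG) = n * c := congrArg Subtype.val e
    have h4 : ((DihedralGroup.r 1, Multiplicative.ofAdd 1) : GG) * a *
        ((DihedralGroup.r 1, Multiplicative.ofAdd 1) : GG)⁻¹ = a := by
      rw [h3]
      have h5 : (n : GG) * c * a * ((n : GG) * c)⁻¹ = n * (c * a * (c : GG)⁻¹) * (n : GG)⁻¹ := by
        group
      rw [h5, h, mul_inv_cancel_right, hna]
    revert h4
    decide
  -- `A` permutes with `⟨c⟩`
  have hperm := hC2 (Subgroup.zpowers c) (by rwa [Subgroup.zpowers_le])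
  have h1 : c * ⟨a, haB⟩ ∈ ((A.subgroupOf B : Subgroup B) : Set B) *
      ((Subgroup.zpowers c : Subgroup B) : Set B) := by
    rw [hperm]
    exact Set.mul_mem_mul (Subgroup.mem_zpowers c) ((hmem _).2 (Or.inr rfl))
  obtain ⟨x, hx, y, hy, e2⟩ := h1
  obtain ⟨m, rfl⟩ := Subgroup.mem_zpowers_iff.1 hy
  have e3 : (x : GG) * (c : GG) ^ m = c * a := by
    have := congrArg Subtype.val e2
    simpa using this
  have h4 : ∀ z : GG, z ^ 4 = 1 := by decide
  have hpow : ∃ k : Fin 4, (c : GG) ^ m = (c : GG) ^ (k : ℕ) := by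
    have h5 : (0 : ℤ) ≤ m % 4 := Int.emod_nonneg _ (by norm_num)
    have h6 : m % 4 < 4 := Int.emod_lt_of_pos _ (by norm_num)
    obtain ⟨j, hj⟩ := Int.eq_ofNat_of_zero_le h5
    refine ⟨⟨j, by omega⟩, ?_⟩
    have h7 : m = 4 * (m / 4) + j := by omega
    conv_lhs => rw [h7]
    rw [zpow_add, zpow_mul]
    have h8 : (c : GG) ^ (4 : ℤ) = 1 := by
      have := h4 c
      exact_mod_cast this
    rw [h8, one_zpow, one_mul, zpow_natCast]
  obtain ⟨k, hk⟩ := hpow
  rw [hk] at e3
  have key : ∀ z : GG, par z.1 = par' z.2 → z * a ≠ a * z → ∀ k : Fin 4,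
      z ^ (k : ℕ) ≠ z * a ∧ a * z ^ (k : ℕ) ≠ z * a := by decide
  have hcB : par (c : GG).1 = par' (c : GG).2 := c.2
  rcases (hmem x).1 hx with h5 | h5
  · rw [h5, one_mul] at e3
    exact (key c hcB hca k).1 e3
  · rw [h5] at e3
    exact (key c hcB hca k).2 e3

theorem result : ∃ (G : Type) (_ : Group G) (_ : Finite G) (A B : Subgroup G), A ≤ B ∧
    Propermutable A ∧ ¬ Propermutable (A.subgroupOf B) :=
  ⟨GG, inferInstance, inferInstance, A, B, A_le_B, propermutable_G, not_propermutable_B⟩

end Pool.Agent.Results.MP_1ee7a3_al.OrderThirtyTwo
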